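import Mathlib

/-!
# The rows of Pascal's triangle modulo two
-/

namespace Q4.FId

lemma choose_odd_of_two_pow (a : ℕ) : ∀ j, j ≤ 2 ^ a - 1 → (2 ^ a - 1).choose j % 2 = 1 := by
  induction a with
  | zero =>
    intro j hj
    have : j = 0 := by simpa using hj
    subst this
    simp
  | succ a ih =>
    intro j hj
    have hp : 1 ≤ 2 ^ a := Nat.one_le_two_pow
    have h1 : 2 ^ (a + 1) - 1 = 2 * (2 ^ a - 1) + 1 := by rw [pow_succ]; omega
    have hL := Choose.choose_modEq_choose_mod_mul_choose_div_nat (n := 2 ^ (a + 1) - 1) (k := j)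
      (p := 2)
    have e1 : (2 ^ (a + 1) - 1) % 2 = 1 := by omega
    have e2 : (2 ^ (a + 1) - 1) / 2 = 2 ^ a - 1 := by omega
    rw [e1, e2] at hL
    have hj2 : j / 2 ≤ 2 ^ a - 1 := by omega
    have h3 : Nat.choose 1 (j % 2) = 1 := by
      rcases Nat.mod_two_eq_zero_or_one j with h | h <;> rw [h] <;> rfl
    rw [h3, one_mul] at hL
    have h4 := ih _ hj2
    unfold Nat.ModEq at hL
    omega

lemma two_pow_of_choose_odd (n : ℕ) : (∀ j, j ≤ n → n.choose j % 2 = 1) → ∃ a, n + 1 = 2 ^ a := by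
  induction n using Nat.strong_induction_on with
  | _ n ih =>
    intro h
    rcases Nat.eq_zero_or_pos n with rfl | hn
    · exact ⟨0, rfl⟩
    · have h1 := h 1 hn
      rw [Nat.choose_one_right] at h1
      have h2 : ∀ j, j ≤ n / 2 → (n / 2).choose j % 2 = 1 := by
        intro j hj
        have hL := Choose.choose_modEq_choose_mod_mul_choose_div_nat (n := n) (k := 2 * j) (p := 2)
        have e1 : (2 * j) % 2 = 0 := by omega
        have e2 : (2 * j) / 2 = j := by omega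
        rw [e1, e2, Nat.choose_zero_right, one_mul] at hL
        have h3 := h (2 * j) (by omega)
        unfold Nat.ModEq at hL
        omega
      obtain ⟨a, ha⟩ := ih (n / 2) (by omega) h2
      refine ⟨a + 1, ?_⟩
      rw [pow_succ]
      omega

/-- A function which vanishes at all the numbers `2 ^ a - 1` and at which it vanishes only at
these is not eventually quasi-polynomial. -/
lemma not_quasi (f : ℕ → ℕ) (h0 : ∀ a, f (2 ^ a - 1) = 0) (h1 : ∀ n, f n = 0 → ∃ a, n + 1 = 2 ^ a)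
    (N : ℕ) (hN : 1 ≤ N) (p : ℕ → Polynomial ℚ) (n₀ : ℕ)
    (h : ∀ n, n₀ ≤ n → (f n : ℚ) = (p (n % N)).eval (n : ℚ)) : False := by
  classical
  -- infinitely many exponents in one residue class
  have : NeZero N := ⟨by omega⟩
  obtain ⟨r, hr⟩ := Finite.exists_infinite_fiber
    (fun a : ℕ => (⟨(2 ^ a - 1) % N, Nat.mod_lt _ (by omega)⟩ : Fin N))
  rw [Set.infinite_coe_iff] at hr
  have hmem : ∀ a, a ∈ (fun a : ℕ => (⟨(2 ^ a - 1) % N, Nat.mod_lt _ (by omega)⟩ : Fin N)) ⁻¹' {r} ↔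
      (2 ^ a - 1) % N = r := by
    intro a
    simp only [Set.mem_preimage, Set.mem_singleton_iff, Fin.ext_iff]
  have hp : p r = 0 := by
    apply Polynomial.eq_zero_of_infinite_isRoot
    have hinf : ((fun a : ℕ => (((2 ^ a - 1 : ℕ) : ℕ) : ℚ)) ''
        ((fun a : ℕ => (⟨(2 ^ a - 1) % N, Nat.mod_lt _ (by omega)⟩ : Fin N)) ⁻¹' {r} \
          {a | a < n₀})).Infinite := by
      apply Set.Infinite.image
      · intro a _ b _ hab
        have h3 : (2 ^ a - 1 : ℕ) = 2 ^ b - 1 := Nat.cast_injective (R := ℚ) hab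
        have ha : 1 ≤ 2 ^ a := Nat.one_le_two_pow
        have hb : 1 ≤ 2 ^ b := Nat.one_le_two_pow
        exact Nat.pow_right_injective (le_refl 2) (by show 2 ^ a = 2 ^ b; omega)
      · exact hr.sdiff (Set.finite_lt_nat n₀)
    refine hinf.mono ?_
    rintro _ ⟨a, ⟨ha, ha2⟩, rfl⟩
    have ha3 : n₀ ≤ a := by
      by_contra hc
      exact ha2 (not_le.mp hc)
    have ha4 : n₀ ≤ 2 ^ a - 1 := by
      have := Nat.lt_two_pow_self (n := a)
      omega
    have h5 := h _ ha4
    rw [(hmem a).mp ha, h0 a] at h5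
    show (p r).eval (((2 ^ a - 1 : ℕ) : ℕ) : ℚ) = 0
    rw [← h5]
    simp
  obtain ⟨a, ha, ha2⟩ := hr.exists_gt (n₀ + N)
  have hlt := Nat.lt_two_pow_self (n := a)
  have h6 := h (2 ^ a - 1 + N) (by omega)
  rw [Nat.add_mod_right, (hmem a).mp ha, hp, Polynomial.eval_zero] at h6
  have h7 : f (2 ^ a - 1 + N) = 0 := by exact_mod_cast h6
  obtain ⟨b, hb⟩ := h1 _ h7
  have h8 : 2 ^ b = 2 ^ a + N := by omega
  have h9 : 2 ^ a < 2 ^ b := by omega
  have h10 : 2 ^ b < 2 ^ (a + 1) := by rw [pow_succ]; omega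
  have h11 := (Nat.pow_lt_pow_iff_right (by norm_num : 1 < 2)).mp h9
  have h12 := (Nat.pow_lt_pow_iff_right (by norm_num : 1 < 2)).mp h10
  omega

end Q4.FId
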