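import Mathlib

/-!
# The category `FI_d`, its modules, and the cohomology of the symmetric groups
-/

open CategoryTheory

namespace Q4.FId

/-- The objects of `FI_d`: the finite sets. -/
structure Obj (d : ℕ) : Type 1 where
  carrier : Type
  fin : Finite carrier

/-- A morphism `A → B` of `FI_d`: an injection `g : A → B` and a colouring of the complement of its
image with `d` colours. The colouring is given as a map `h` on all of `B` which takes the value
`none` exactly on the image of `g`, and is `some i` at the points of colour `i`. -/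
@[ext]
structure Mor (d : ℕ) (A B : Type) where
  g : A → B
  inj : Function.Injective g
  h : B → Option (Fin d)
  h_none : ∀ b, h b = none ↔ b ∈ Set.range g

variable {d : ℕ}

/-- The identity morphism. -/
def Mor.id (A : Type) : Mor d A A where
  g := fun a => a
  inj := fun _ _ h => h
  h := fun _ => none
  h_none := fun b => ⟨fun _ => ⟨b, rfl⟩, fun _ => rfl⟩

open Classical in
/-- Composition of morphisms: composition of the injections, and each new point keeps the colour it
was given. -/
noncomputable def Mor.comp {A B C : Type} (f : Mor d A B) (f' : Mor d B C) : Mor d A C where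
  g := fun a => f'.g (f.g a)
  inj := fun _ _ h => f.inj (f'.inj h)
  h := fun c => if hc : ∃ b, f'.g b = c then f.h hc.choose else f'.h c
  h_none := by
    intro c
    split_ifs with hc
    · rw [f.h_none]
      constructor
      · rintro ⟨a, ha⟩
        refine ⟨a, ?_⟩
        show f'.g (f.g a) = c
        rw [ha]
        exact hc.choose_spec
      · rintro ⟨a, ha⟩
        exact ⟨a, f'.inj (by rw [hc.choose_spec]; exact ha)⟩
    · rw [f'.h_none]
      constructor
      · rintro ⟨b, hb⟩
        exact absurd ⟨b, hb⟩ hc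
      · rintro ⟨a, ha⟩
        exact absurd ⟨f.g a, ha⟩ hc

lemma Mor.comp_h_of_mem {A B C : Type} (f : Mor d A B) (f' : Mor d B C) (b : B) :
    (f.comp f').h (f'.g b) = f.h b := by
  have hc : ∃ b', f'.g b' = f'.g b := ⟨b, rfl⟩
  have h1 : (f.comp f').h (f'.g b) = f.h hc.choose := dif_pos hc
  rw [h1, f'.inj hc.choose_spec]

lemma Mor.comp_h_of_not {A B C : Type} (f : Mor d A B) (f' : Mor d B C) (c : C)
    (hc : ¬ ∃ b, f'.g b = c) : (f.comp f').h c = f'.h c := by
  exact dif_neg hc

noncomputable instance : Category (Obj d) where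
  Hom A B := Mor d A.carrier B.carrier
  id A := Mor.id A.carrier
  comp f f' := f.comp f'
  id_comp {A B} f := by
    apply Mor.ext
    · rfl
    · funext b
      by_cases hb : ∃ a, f.g a = b
      · obtain ⟨a, rfl⟩ := hb
        rw [Mor.comp_h_of_mem]
        exact ((f.h_none _).mpr ⟨a, rfl⟩).symm
      · rw [Mor.comp_h_of_not _ _ _ hb]
  comp_id {A B} f := by
    apply Mor.ext
    · rfl
    · funext b
      exact Mor.comp_h_of_mem f (Mor.id B.carrier) b
  assoc {A B C D} f f' f'' := by
    apply Mor.ext
    · rfl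
    · funext x
      by_cases hx : ∃ c, f''.g c = x
      · obtain ⟨c, rfl⟩ := hx
        rw [Mor.comp_h_of_mem]
        by_cases hc : ∃ b, f'.g b = c
        · obtain ⟨b, rfl⟩ := hc
          rw [Mor.comp_h_of_mem]
          exact (Mor.comp_h_of_mem f (f'.comp f'') b).symm
        · rw [Mor.comp_h_of_not _ _ _ hc, Mor.comp_h_of_not f (f'.comp f'')]
          · rw [Mor.comp_h_of_mem]
          · rintro ⟨b, hb⟩
            exact hc ⟨b, f''.inj hb⟩
      · rw [Mor.comp_h_of_not _ _ _ hx, Mor.comp_h_of_not f (f'.comp f'')]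
        · rw [Mor.comp_h_of_not _ _ _ hx]
        · rintro ⟨b, hb⟩
          exact hx ⟨f'.g b, hb⟩

/-- The object `[n]`. -/
def std (d n : ℕ) : Obj d := ⟨Fin n, inferInstance⟩

/-- The automorphism `(σ, ∅)` of `[n]`. -/
def perm (d n : ℕ) (σ : Equiv.Perm (Fin n)) : std d n ⟶ std d n :=
  { g := fun a => σ a
    inj := σ.injective
    h := fun _ => none
    h_none := fun b => ⟨fun _ => ⟨σ.symm b, σ.apply_symm_apply b⟩, fun _ => rfl⟩ }

lemma perm_one (n : ℕ) : perm d n 1 = 𝟙 (std d n) := rfl

lemma perm_mul (n : ℕ) (σ τ : Equiv.Perm (Fin n)) :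
    perm d n (σ * τ) = perm d n τ ≫ perm d n σ := by
  apply Mor.ext
  · rfl
  · funext b
    have h1 : ((perm d n τ).comp (perm d n σ)).h ((perm d n σ).g (σ.symm b)) =
        (perm d n τ).h (σ.symm b) := Mor.comp_h_of_mem _ _ _
    have h2 : (perm d n σ).g (σ.symm b) = b := σ.apply_symm_apply b
    rw [h2] at h1
    exact h1.symm

variable {k : Type} [Field k]

/-- An `FI_d`-module over `k`. -/
abbrev FIMod (d : ℕ) (k : Type) [Field k] := Obj d ⥤ ModuleCat.{0} k

/-- `V` is finitely generated: there are finitely many elements `v_i ∈ V([n_i])` which are contained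
in no proper subfunctor of `V`. -/
def FinGen (V : FIMod d k) : Prop :=
  ∃ (m : ℕ) (n : Fin m → ℕ) (v : ∀ i, V.obj (std d (n i))),
    ∀ W : ∀ B : Obj d, Submodule k (V.obj B),
      (∀ (A B : Obj d) (f : A ⟶ B), ∀ x ∈ W A, V.map f x ∈ W B) →
      (∀ i, v i ∈ W (std d (n i))) → ∀ B, W B = ⊤

/-- The representation of the symmetric group on `V_n = V([n])`. -/
noncomputable def rho (V : FIMod d k) (n : ℕ) :
    Representation k (Equiv.Perm (Fin n)) (V.obj (std d n)) where
  toFun σ := (V.map (perm d n σ)).hom
  map_one' := by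
    rw [perm_one, V.map_id]
    rfl
  map_mul' σ τ := by
    rw [perm_mul, V.map_comp]
    rfl

/-- `dim H^t(S_n, V_n)`. -/
noncomputable def dimH (V : FIMod d k) (t n : ℕ) : ℕ :=
  Module.finrank k (groupCohomology (Rep.of (rho V n)) t)

/-- `f` agrees for all large `n` with a quasi-polynomial (of any degree). -/
def EventuallyQuasiPolynomial (f : ℕ → ℕ) : Prop :=
  ∃ (N : ℕ) (_ : 1 ≤ N) (p : ℕ → Polynomial ℚ) (n₀ : ℕ),
    ∀ n, n₀ ≤ n → (f n : ℚ) = (p (n % N)).eval (n : ℚ)

end Q4.FId
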