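import Pool.Agent.Q4.FId.Model
import Pool.Agent.Q4.FId.Arith

/-!
# The invariants of the modules of the example
-/

open CategoryTheory

namespace Q4.FId

lemma F_perm (n : ℕ) (σ : Equiv.Perm (Fin n)) (S : Set (Fin n)) :
    F (perm 2 n σ : Mor 2 (Fin n) (Fin n)) S = σ '' S := by
  have h : F (perm 2 n σ : Mor 2 (Fin n) (Fin n)) S = (fun a => σ a) '' S ∪
      {b : Fin n | (none : Option (Fin 2)) = some 1} := rfl
  rw [h]
  have h2 : {b : Fin n | (none : Option (Fin 2)) = some 1} = ∅ := by
    ext b
    simp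
  rw [h2, Set.union_empty]

/-- Two subsets of the same size are conjugate. -/
lemma exists_perm (n : ℕ) (S S' : Set (Fin n)) (h : S.ncard = S'.ncard) :
    ∃ σ : Equiv.Perm (Fin n), σ '' S = S' := by
  classical
  have e : {x // x ∈ S} ≃ {x // x ∈ S'} := by
    apply Fintype.equivOfCardEq
    rw [← Nat.card_eq_fintype_card, ← Nat.card_eq_fintype_card]
    exact h
  refine ⟨e.extendSubtype, ?_⟩
  ext x
  constructor
  · rintro ⟨y, hy, rfl⟩
    exact e.extendSubtype_mem y hy
  · intro hx
    refine ⟨e.extendSubtype.symm x, ?_, Equiv.apply_symm_apply _ _⟩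
    by_contra hc
    have := e.extendSubtype_not_mem _ hc
    rw [Equiv.apply_symm_apply] at this
    exact this hx

lemma card_level (n j : ℕ) [DecidablePred fun S : Set (Fin n) => S.ncard = j] :
    (Finset.univ.filter fun S : Set (Fin n) => S.ncard = j).card = n.choose j := by
  classical
  have h : (Finset.powersetCard j (Finset.univ : Finset (Fin n))).card = n.choose j := by
    rw [Finset.card_powersetCard, Finset.card_univ, Fintype.card_fin]
  rw [← h]
  apply Finset.card_bij (fun S _ => S.toFinset)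
  · intro S hS
    rw [Finset.mem_filter] at hS
    rw [Finset.mem_powersetCard]
    refine ⟨Finset.subset_univ _, ?_⟩
    rw [← hS.2, Set.ncard_eq_toFinset_card']
  · intro S _ S' _ h
    exact Set.toFinset_inj.mp h
  · intro T hT
    rw [Finset.mem_powersetCard] at hT
    refine ⟨(T : Set (Fin n)), ?_, by simp⟩
    rw [Finset.mem_filter]
    exact ⟨Finset.mem_univ _, by rw [Set.ncard_coe_finset]; exact hT.2⟩

open Classical in
lemma cnt_apply (n : ℕ) (x : Set (Fin n) →₀ k2) (j : ℕ) :
    cnt (Fin n) x j = ∑ S ∈ Finset.univ.filter (fun S : Set (Fin n) => S.ncard = j), x S := by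
  rw [cnt, Finsupp.lmapDomain_apply, Finsupp.mapDomain, Finsupp.sum_apply, Finsupp.sum_fintype,
    Finset.sum_filter]
  · refine Finset.sum_congr rfl fun S _ => ?_
    rw [Finsupp.single_apply]
  · intro S
    simp

lemma rho_coe (n : ℕ) (σ : Equiv.Perm (Fin n)) (x : K (Fin n)) :
    Subtype.val (p := (· ∈ K (Fin n))) (rho V n σ x) =
      Finsupp.mapDomain (fun S : Set (Fin n) => σ '' S) (x : Set (Fin n) →₀ k2) := by
  have h : Subtype.val (p := (· ∈ K (Fin n))) (rho V n σ x) =
      Finsupp.mapDomain (F (perm 2 n σ : Mor 2 (Fin n) (Fin n))) (x : Set (Fin n) →₀ k2) := rfl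
  rw [h]
  congr 1
  funext S
  exact F_perm n σ S

lemma dimH_zero (n : ℕ) :
    dimH V 0 n = Module.finrank k2 (rho V n).invariants := by
  unfold dimH
  exact (groupCohomology.H0Iso (Rep.of (rho V n))).toLinearEquiv.finrank_eq

/-- If all the binomial coefficients are odd then there are no invariants. -/
lemma invariants_eq_bot (n : ℕ) (h : ∀ j, j ≤ n → n.choose j % 2 = 1) :
    (rho V n).invariants = ⊥ := by
  classical
  rw [eq_bot_iff]
  intro x hx
  rw [Representation.mem_invariants] at hx
  have hx' : ∀ σ : Equiv.Perm (Fin n), Finsupp.mapDomain (fun S : Set (Fin n) => σ '' S)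
      (Subtype.val (p := (· ∈ K (Fin n))) x) = Subtype.val (p := (· ∈ K (Fin n))) x := by
    intro σ
    have h1 := congrArg (Subtype.val (p := (· ∈ K (Fin n)))) (hx σ)
    rw [← rho_coe n σ x]
    exact h1
  have hconst : ∀ S S' : Set (Fin n), S.ncard = S'.ncard →
      (Subtype.val (p := (· ∈ K (Fin n))) x) S = (Subtype.val (p := (· ∈ K (Fin n))) x) S' := by
    intro S S' hS
    obtain ⟨σ, rfl⟩ := exists_perm n S S' hS
    have h1 := DFunLike.congr_fun (hx' σ) (σ '' S)
    have hinj : Function.Injective (fun S : Set (Fin n) => σ '' S) := σ.injective.image_injective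
    rw [Finsupp.mapDomain_apply hinj] at h1
    exact h1
  have hK : cnt (Fin n) (Subtype.val (p := (· ∈ K (Fin n))) x) = 0 :=
    (mem_K _).mp (Subtype.property (p := (· ∈ K (Fin n))) x)
  show x = 0
  apply Subtype.ext
  show (Subtype.val (p := (· ∈ K (Fin n))) x) = 0
  ext1 S
  have h2 := DFunLike.congr_fun hK S.ncard
  rw [cnt_apply] at h2
  rw [Finset.sum_congr rfl (g := fun _ => (Subtype.val (p := (· ∈ K (Fin n))) x) S)
    (fun S' hS' => hconst S' S (Finset.mem_filter.mp hS').2), Finset.sum_const, card_level] at h2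
  have hle : S.ncard ≤ n := by
    have := Set.ncard_le_card S
    rwa [Nat.card_eq_fintype_card, Fintype.card_fin] at this
  have h3 : ((n.choose S.ncard : ℕ) : k2) = 1 := by
    have h4 : ((n.choose S.ncard : ℕ) : ZMod 2) = ((1 : ℕ) : ZMod 2) :=
      (ZMod.natCast_eq_natCast_iff' _ _ _).mpr (h _ hle)
    rw [h4, Nat.cast_one]
  rw [nsmul_eq_mul, h3, one_mul] at h2
  exact h2

/-- If a binomial coefficient is even then there is a non-zero invariant. -/
lemma invariants_ne_bot (n j : ℕ) (hj : j ≤ n) (h : n.choose j % 2 = 0) :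
    (rho V n).invariants ≠ ⊥ := by
  classical
  set O : Set (Fin n) →₀ k2 :=
    Finsupp.equivFunOnFinite.symm (fun S => if S.ncard = j then 1 else 0) with hO
  have hOv : ∀ S, O S = if S.ncard = j then 1 else 0 := fun S => rfl
  have hOK : O ∈ K (Fin n) := by
    rw [mem_K]
    ext1 i
    rw [cnt_apply]
    show _ = (0 : k2)
    by_cases hij : i = j
    · subst hij
      rw [Finset.sum_congr rfl (g := fun _ => (1 : k2))
        (fun S hS => by rw [hOv, if_pos (Finset.mem_filter.mp hS).2]), Finset.sum_const, card_level,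
        nsmul_eq_mul, mul_one]
      exact (ZMod.natCast_eq_zero_iff _ _).mpr (Nat.dvd_of_mod_eq_zero h)
    · apply Finset.sum_eq_zero
      intro S hS
      rw [hOv, if_neg]
      rw [(Finset.mem_filter.mp hS).2]
      exact hij
  intro hbot
  obtain ⟨o, ho⟩ : ∃ o : V.obj (std 2 n), o = (⟨O, hOK⟩ : K (Fin n)) := ⟨_, rfl⟩
  have hmem : o ∈ (rho V n).invariants := by
    rw [Representation.mem_invariants]
    intro σ
    rw [ho]
    apply Subtype.ext
    refine (rho_coe n σ ⟨O, hOK⟩).trans ?_
    show Finsupp.mapDomain (fun S : Set (Fin n) => σ '' S) O = O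
    ext1 S
    have hS : S = (fun S : Set (Fin n) => σ '' S) (σ.symm '' S) := by
      show S = σ '' (σ.symm '' S)
      rw [← Set.image_comp]
      simp
    have hinj : Function.Injective (fun S : Set (Fin n) => σ '' S) := σ.injective.image_injective
    conv_lhs => rw [hS]
    rw [Finsupp.mapDomain_apply hinj, hOv, hOv, Set.ncard_image_of_injective _ σ.symm.injective]
  rw [hbot] at hmem
  have h0' : o = 0 := (Submodule.mem_bot _).mp hmem
  rw [ho] at h0'
  have h0 : O = 0 := congrArg (Subtype.val (p := (· ∈ K (Fin n)))) h0'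
  obtain ⟨S, hS⟩ : (Finset.univ.filter fun S : Set (Fin n) => S.ncard = j).Nonempty := by
    rw [← Finset.card_pos, card_level]
    exact Nat.choose_pos hj
  have h1 := DFunLike.congr_fun h0 S
  rw [hOv, if_pos (Finset.mem_filter.mp hS).2] at h1
  exact one_ne_zero h1

theorem main : ∃ (k : Type) (_ : Field k) (d : ℕ) (_ : 1 ≤ d) (V : FIMod d k), FinGen V ∧
    ¬ EventuallyQuasiPolynomial (dimH V 0) := by
  refine ⟨k2, inferInstance, 2, by norm_num, V, finGen, ?_⟩
  rintro ⟨N, hN, p, n₀, h⟩
  refine not_quasi (dimH V 0) ?_ ?_ N hN p n₀ h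
  · intro a
    rw [dimH_zero, invariants_eq_bot _ (choose_odd_of_two_pow a)]
    exact finrank_bot k2 _
  · intro n hn
    apply two_pow_of_choose_odd
    intro j hj
    by_contra hc
    apply invariants_ne_bot n j hj (by omega)
    rw [dimH_zero] at hn
    have : FiniteDimensional k2 (K (Fin n)) := inferInstance
    have : FiniteDimensional k2 (V.obj (std 2 n)) := this
    exact Submodule.finrank_eq_zero.mp hn

end Q4.FId
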