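import Pool.Agent.Q4.FId.Defs

/-!
# The `FI_2`-module over `F_2`
-/

open CategoryTheory

namespace Q4.FId

abbrev k2 := ZMod 2

/-- The set of points of colour `1` of the complement. -/
def ones {A B : Type} (f : Mor 2 A B) : Set B := {b | f.h b = some 1}

/-- The map on subsets. -/
def F {A B : Type} (f : Mor 2 A B) (S : Set A) : Set B := f.g '' S ∪ ones f

lemma F_id {A : Type} (S : Set A) : F (Mor.id (d := 2) A) S = S := by
  ext x
  simp [F, ones, Mor.id]

lemma F_comp {A B C : Type} (f : Mor 2 A B) (f' : Mor 2 B C) (S : Set A) :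
    F (f.comp f') S = F f' (F f S) := by
  ext x
  simp only [F, ones, Set.mem_union, Set.mem_image, Set.mem_ofPred_eq]
  by_cases hx : ∃ b, f'.g b = x
  · obtain ⟨b, rfl⟩ := hx
    rw [Mor.comp_h_of_mem]
    have h1 : f'.h (f'.g b) = none := (f'.h_none _).mpr ⟨b, rfl⟩
    rw [h1]
    constructor
    · rintro (⟨a, ha, h⟩ | h)
      · exact Or.inl ⟨f.g a, Or.inl ⟨a, ha, rfl⟩, h⟩
      · exact Or.inl ⟨b, Or.inr h, rfl⟩
    · rintro (⟨y, hy | hy, h⟩ | h)
      · obtain ⟨a, ha, rfl⟩ := hy
        exact Or.inl ⟨a, ha, h⟩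
      · have := f'.inj h
        subst this
        exact Or.inr hy
      · exact absurd h (by simp)
  · rw [Mor.comp_h_of_not _ _ _ hx]
    constructor
    · rintro (⟨a, ha, h⟩ | h)
      · exact absurd ⟨f.g a, h⟩ hx
      · exact Or.inr h
    · rintro (⟨y, hy, h⟩ | h)
      · exact absurd ⟨y, h⟩ hx
      · exact Or.inr h

lemma ncard_F {A B : Type} [Finite A] [Finite B] (f : Mor 2 A B) (S : Set A) :
    (F f S).ncard = S.ncard + (ones f).ncard := by
  unfold F
  rw [Set.ncard_union_eq ?_ (Set.toFinite _) (Set.toFinite _), Set.ncard_image_of_injective _ f.inj]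
  rw [Set.disjoint_left]
  rintro x ⟨a, _, rfl⟩ hx
  have h1 : f.h (f.g a) = none := (f.h_none _).mpr ⟨a, rfl⟩
  have h2 : f.h (f.g a) = some 1 := hx
  rw [h1] at h2
  exact absurd h2 (by simp)

/-- The counting map on the permutation module. -/
noncomputable def cnt (B : Type) : (Set B →₀ k2) →ₗ[k2] (ℕ →₀ k2) :=
  Finsupp.lmapDomain k2 k2 Set.ncard

/-- The submodule of elements whose coefficients sum to zero on every level. -/
noncomputable def K (B : Type) : Submodule k2 (Set B →₀ k2) := LinearMap.ker (cnt B)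

lemma mem_K {B : Type} (x : Set B →₀ k2) : x ∈ K B ↔ cnt B x = 0 := Iff.rfl

lemma cnt_single {B : Type} (S : Set B) (r : k2) :
    cnt B (Finsupp.single S r) = Finsupp.single S.ncard r := by
  simp [cnt]

lemma cnt_F {A B : Type} [Finite A] [Finite B] (f : Mor 2 A B) (x : Set A →₀ k2) :
    cnt B (Finsupp.lmapDomain k2 k2 (F f) x) =
      Finsupp.lmapDomain k2 k2 (fun j => j + (ones f).ncard) (cnt A x) := by
  simp only [cnt, Finsupp.lmapDomain_apply, ← Finsupp.mapDomain_comp]
  congr 1
  funext S
  exact ncard_F f S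

lemma map_mem {A B : Type} [Finite A] [Finite B] (f : Mor 2 A B) :
    ∀ x ∈ K A, Finsupp.lmapDomain k2 k2 (F f) x ∈ K B := by
  intro x hx
  rw [mem_K] at hx ⊢
  rw [cnt_F, hx, map_zero]

instance (A : Obj 2) : Finite A.carrier := A.fin

/-- The linear map given by a morphism. -/
noncomputable def mapK {A B : Type} [Finite A] [Finite B] (f : Mor 2 A B) : K A →ₗ[k2] K B :=
  (Finsupp.lmapDomain k2 k2 (F f)).restrict (map_mem f)

lemma mapK_coe {A B : Type} [Finite A] [Finite B] (f : Mor 2 A B) (x : K A) :
    (mapK f x : Set B →₀ k2) = Finsupp.mapDomain (F f) (x : Set A →₀ k2) := rfl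

/-- The `FI_2`-module. -/
noncomputable def V : FIMod 2 k2 where
  obj A := ModuleCat.of k2 (K A.carrier)
  map {A B} f := ModuleCat.ofHom (mapK (A := A.carrier) (B := B.carrier) f)
  map_id A := by
    apply ModuleCat.hom_ext
    apply LinearMap.ext
    intro x
    apply Subtype.ext
    show Finsupp.mapDomain (F (Mor.id (d := 2) A.carrier)) (x : Set A.carrier →₀ k2) = x
    have : F (Mor.id (d := 2) A.carrier) = fun S => S := by
      funext S
      exact F_id S
    rw [this]
    exact Finsupp.mapDomain_id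
  map_comp {A B C} f f' := by
    apply ModuleCat.hom_ext
    apply LinearMap.ext
    intro x
    apply Subtype.ext
    show Finsupp.mapDomain (F (Mor.comp f f')) (x : Set A.carrier →₀ k2) =
      Finsupp.mapDomain (F f') (Finsupp.mapDomain (F f) (x : Set A.carrier →₀ k2))
    rw [← Finsupp.mapDomain_comp]
    congr 1
    funext S
    exact F_comp f f' S

lemma V_map_coe {A B : Obj 2} (f : A ⟶ B) (x : K A.carrier) :
    (Subtype.val (p := (· ∈ K B.carrier)) (V.map f x) : Set B.carrier →₀ k2) =
      Finsupp.mapDomain (F f) (x : Set A.carrier →₀ k2) := rfl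

/-! ### Finite generation -/

lemma gen_mem : (Finsupp.single ({0} : Set (Fin 2)) (1 : k2) -
    Finsupp.single ({1} : Set (Fin 2)) 1) ∈ K (Fin 2) := by
  rw [mem_K, map_sub, cnt_single, cnt_single]
  simp

/-- The generator. -/
noncomputable def gen : K (Fin 2) := ⟨_, gen_mem⟩

/-- The morphism `[2] → B` which sends the two points to `a` and `b`, with the set of points of
colour `1` given by `S`. -/
lemma exists_mor {B : Type} (a b : B) (hab : a ≠ b) (S : Set B) (ha : a ∉ S) (hb : b ∉ S) :
    ∃ f : Mor 2 (Fin 2) B, f.g 0 = a ∧ f.g 1 = b ∧ ones f = S := by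
  classical
  refine ⟨{ g := fun i => if i = 0 then a else b
            inj := ?_
            h := fun x => if x = a ∨ x = b then none else if x ∈ S then some 1 else some 0
            h_none := ?_ }, ?_, ?_, ?_⟩
  · intro i j hij
    fin_cases i <;> fin_cases j <;> simp_all
  · intro x
    constructor
    · intro hx
      by_cases h : x = a ∨ x = b
      · rcases h with h | h
        · exact ⟨0, by simp [h]⟩
        · exact ⟨1, by simp [h]⟩
      · rw [if_neg h] at hx
        split_ifs at hx
    · rintro ⟨i, rfl⟩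
      fin_cases i <;> simp
  · simp
  · simp
  · ext x
    simp only [ones, Set.mem_ofPred_eq]
    constructor
    · intro hx
      by_cases h : x = a ∨ x = b
      · rw [if_pos h] at hx
        exact absurd hx (by simp)
      · rw [if_neg h] at hx
        by_contra hS
        rw [if_neg hS] at hx
        exact absurd hx (by simp)
    · intro hx
      have h : ¬ (x = a ∨ x = b) := by
        rintro (rfl | rfl)
        · exact ha hx
        · exact hb hx
      rw [if_neg h, if_pos hx]

lemma swap_mem (W : ∀ B : Obj 2, Submodule k2 (V.obj B))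
    (hW : ∀ (A B : Obj 2) (f : A ⟶ B), ∀ x ∈ W A, V.map f x ∈ W B)
    (hg : (gen : V.obj (std 2 2)) ∈ W (std 2 2)) (B : Obj 2) :
    ∀ (m : ℕ) (S S' : Set B.carrier), S.ncard = S'.ncard → (S \ S').ncard = m →
      (Finsupp.single S (1 : k2) - Finsupp.single S' 1) ∈ (W B).map (K B.carrier).subtype := by
  intro m
  induction m with
  | zero =>
    intro S S' hc hm
    have h1 : S ⊆ S' := by
      rw [Set.ncard_eq_zero (Set.toFinite _)] at hm
      exact Set.sdiff_eq_empty.mp hm
    have h2 : S = S' := Set.eq_of_subset_of_ncard_le h1 hc.ge (Set.toFinite _)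
    rw [h2, sub_self]
    exact Submodule.zero_mem _
  | succ m ih =>
    intro S S' hc hm
    have h1 : (S \ S').Nonempty := by
      rw [← Set.ncard_pos (Set.toFinite _)]
      omega
    have h2 : (S' \ S).ncard = m + 1 := by
      have e1 := Set.ncard_inter_add_ncard_sdiff_eq_ncard S S' (Set.toFinite _)
      have e2 := Set.ncard_inter_add_ncard_sdiff_eq_ncard S' S (Set.toFinite _)
      rw [Set.inter_comm] at e2
      omega
    have h3 : (S' \ S).Nonempty := by
      rw [← Set.ncard_pos (Set.toFinite _)]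
      omega
    obtain ⟨a, ha, ha'⟩ := h1
    obtain ⟨b, hb, hb'⟩ := h3
    have hab : a ≠ b := fun h => hb' (h ▸ ha)
    obtain ⟨f, f0, f1, fS⟩ := exists_mor a b hab (S \ {a}) (by simp) (fun h => hb' h.1)
    have hF0 : F f {0} = S := by
      rw [F, fS, Set.image_singleton, f0]
      rw [Set.union_sdiff_self, Set.union_eq_right]
      simpa using ha
    have hF1 : F f {1} = {b} ∪ S \ {a} := by
      rw [F, fS, Set.image_singleton, f1]
    have hcard : ({b} ∪ S \ {a} : Set B.carrier).ncard = S.ncard := by
      rw [Set.ncard_union_eq ?_ (Set.toFinite _) (Set.toFinite _), Set.ncard_singleton,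
        Set.ncard_sdiff_singleton_of_mem ha]
      · have : 0 < S.ncard := (Set.ncard_pos (Set.toFinite _)).mpr ⟨a, ha⟩
        omega
      · rw [Set.disjoint_singleton_left]
        exact fun h => hb' h.1
    have hdiff : (({b} ∪ S \ {a} : Set B.carrier) \ S') = (S \ S') \ {a} := by
      ext x
      simp only [Set.mem_sdiff, Set.mem_union, Set.mem_singleton_iff]
      constructor
      · rintro ⟨h | ⟨h1, h2⟩, h3⟩
        · exact absurd (h ▸ hb) h3
        · exact ⟨⟨h1, h3⟩, h2⟩
      · rintro ⟨⟨h1, h3⟩, h2⟩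
        exact ⟨Or.inr ⟨h1, h2⟩, h3⟩
    have hstep := ih ({b} ∪ S \ {a}) S' (hcard.trans hc) (by
      have hmem : a ∈ S \ S' := ⟨ha, ha'⟩
      rw [hdiff, Set.ncard_sdiff_singleton_of_mem hmem]
      omega)
    have hgen : (Finsupp.single S (1 : k2) - Finsupp.single ({b} ∪ S \ {a}) 1) ∈
        (W B).map (K B.carrier).subtype := by
      refine ⟨_, hW (std 2 2) B f _ hg, ?_⟩
      show Finsupp.mapDomain (F f) (Finsupp.single ({0} : Set (Fin 2)) (1 : k2) -
        Finsupp.single ({1} : Set (Fin 2)) 1) = _
      rw [← Finsupp.lmapDomain_apply k2 k2, map_sub, Finsupp.lmapDomain_apply,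
        Finsupp.lmapDomain_apply, Finsupp.mapDomain_single, Finsupp.mapDomain_single, hF0, hF1]
    have := Submodule.add_mem _ hgen hstep
    rwa [sub_add_sub_cancel] at this

theorem finGen : FinGen V := by
  classical
  refine ⟨1, fun _ => 2, fun _ => (gen : V.obj (std 2 2)), ?_⟩
  intro W hW hg B
  have hg' := hg 0
  rw [eq_top_iff]
  rintro x -
  -- representatives
  obtain ⟨R, hR⟩ : ∃ R : ℕ → Set B.carrier, ∀ S : Set B.carrier, (R S.ncard).ncard = S.ncard := by
    refine ⟨fun j => if h : ∃ S : Set B.carrier, S.ncard = j then h.choose else ∅, ?_⟩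
    intro S
    have h : ∃ S' : Set B.carrier, S'.ncard = S.ncard := ⟨S, rfl⟩
    simp only [dif_pos h]
    exact h.choose_spec
  have key : ∀ y : Set B.carrier →₀ k2,
      y - Finsupp.lmapDomain k2 k2 R (cnt B.carrier y) ∈ (W B).map (K B.carrier).subtype := by
    intro y
    induction y using Finsupp.induction_linear with
    | zero => simp
    | add f g hf hg =>
      rw [map_add, map_add, add_sub_add_comm]
      exact Submodule.add_mem _ hf hg
    | single S r =>
      rw [cnt_single, Finsupp.lmapDomain_apply, Finsupp.mapDomain_single]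
      have h := swap_mem W hW hg' B _ S (R S.ncard) (hR S).symm rfl
      have h2 := Submodule.smul_mem _ r h
      rw [smul_sub, Finsupp.smul_single, Finsupp.smul_single, smul_eq_mul, mul_one] at h2
      exact h2
  have hx := key (Subtype.val (p := (· ∈ K B.carrier)) x)
  have h0 : cnt B.carrier (Subtype.val (p := (· ∈ K B.carrier)) x) = 0 :=
    (mem_K _).mp (Subtype.property (p := (· ∈ K B.carrier)) x)
  rw [h0, map_zero, sub_zero] at hx
  obtain ⟨y, hy, hyx⟩ := hx
  have : y = x := Subtype.ext hyx
  exact this ▸ hy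

end Q4.FId
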